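import Pool.Agent.T9h45.LD.Spec
import Pool.Agent.T9h45.HD.Asm
import Pool.Agent.T9h31.CP.Gal
import Pool.Agent.T9h95.CP.Clique

/-!
# LD, piece GEN
-/

set_option autoImplicit false

namespace Pool.T9h45.LD

open Finset Classical Pool.T9h45.HY Pool.T9h45.CP Pool.Q6.CI Pool.Q11.TwoEnd
open Pool.Agent.T9h31.CP (lex_le lex_eq)

/-- the graph with the edges inside `S` -/
def ins {V : Type} (G : SimpleGraph V) (S : V → Prop) : SimpleGraph V where
  Adj x y := G.Adj x y ∧ S x ∧ S y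
  symm := ⟨fun _ _ h => ⟨h.1.symm, h.2.2, h.2.1⟩⟩
  loopless := ⟨fun _ h => h.1.ne rfl⟩

theorem cnt_le {V : Type} [Fintype V] (T : Finset (V × V)) (P : V → Prop) (k : V × V → V)
    (hk : ∀ g ∈ T, ∀ g' ∈ T, k g = k g' → g = g') (h : ∀ g ∈ T, P (k g)) : T.card ≤ cn P := by
  refine Finset.card_le_card_of_injOn k ?_ ?_
  · intro g hg
    exact mem_filter.2 ⟨mem_univ _, h g hg⟩
  · intro g hg g' hg' hgg
    exact hk g hg g' hg' hgg

theorem gen : SGen := by
  intro V _ G D p S f pf hp hfD hff hown hgal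
  set M := Fintype.card V with hM
  let idx : V → ℕ := fun v => (Fintype.equivFin V v : ℕ)
  have hidx : ∀ u v, idx u = idx v → u = v := fun u v h =>
    (Fintype.equivFin V).injective (Fin.ext h)
  have hidxM : ∀ v, idx v < M := fun v => (Fintype.equivFin V v).isLt
  obtain ⟨B, hB⟩ : ∃ B : ℕ, ∀ x y, pf x y ≤ B :=
    ⟨univ.sup fun e : V × V => pf e.1 e.2, fun x y =>
      Finset.le_sup (f := fun e : V × V => pf e.1 e.2) (mem_univ (x, y))⟩
  let P : V × V → ℕ := fun e => pf e.1 e.2 * M + idx e.2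
  let Q : V × V → ℕ := fun e => (B - pf e.2 e.1) * M + idx e.1
  have hop : ∀ e g : V × V, e.1 = g.1 → P e = P g → e = g := fun e g h h' =>
    Prod.ext h (hidx _ _ (lex_eq (hidxM _) (hidxM _) h'))
  have hip : ∀ e g : V × V, e.2 = g.2 → Q e = Q g → e = g := fun e g h h' =>
    Prod.ext (hidx _ _ (lex_eq (hidxM _) (hidxM _) h')) h
  let F : Finset (V × V) := univ.filter fun e => S e.1 ∧ ¬ S e.2 ∧ G.Adj e.1 e.2
  have hF : ∀ e, e ∈ F ↔ S e.1 ∧ ¬ S e.2 ∧ G.Adj e.1 e.2 := fun e => by simp [F]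
  let L : V × V → Finset ℕ := fun e => Finset.Ico (f e.1) (D - f e.2)
  have hL : ∀ e ∈ F, (F.filter (fun g => g.1 = e.1 ∧ P e < P g)).card +
        (F.filter (fun g => g.2 = e.2 ∧ Q g < Q e)).card < (L e).card := by
    rintro ⟨x, y⟩ he
    obtain ⟨hx, hy, hxy⟩ := (hF _).1 he
    have hLc : (L (x, y)).card = D - f y - f x := Nat.card_Ico _ _
    have h1 : (F.filter (fun g => g.1 = x ∧ P (x, y) < P g)).card ≤
        cn (fun z => z ≠ y ∧ ¬ S z ∧ G.Adj x z ∧ pf x y ≤ pf x z) := by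
      refine cnt_le _ _ (fun g => g.2) ?_ ?_
      · intro g hg g' hg' h
        rw [mem_filter] at hg hg'
        exact Prod.ext (hg.2.1.trans hg'.2.1.symm) h
      · intro g hg
        rw [mem_filter] at hg
        obtain ⟨hgF, hg1, hg2⟩ := hg
        obtain ⟨g1, g2, g3⟩ := (hF g).1 hgF
        refine ⟨?_, g2, hg1 ▸ g3, ?_⟩
        · intro h
          have : g = (x, y) := Prod.ext hg1 h
          rw [this] at hg2
          exact lt_irrefl _ hg2
        · have h3 : pf x y ≤ pf g.1 g.2 := lex_le (hidxM _) hg2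
          rw [hg1] at h3
          exact h3
    have h2 : (F.filter (fun g => g.2 = y ∧ Q g < Q (x, y))).card ≤
        cn (fun z => z ≠ x ∧ S z ∧ G.Adj y z ∧ pf y x ≤ pf y z) := by
      refine cnt_le _ _ (fun g => g.1) ?_ ?_
      · intro g hg g' hg' h
        rw [mem_filter] at hg hg'
        exact Prod.ext h (hg.2.1.trans hg'.2.1.symm)
      · intro g hg
        rw [mem_filter] at hg
        obtain ⟨hgF, hg1, hg2⟩ := hg
        obtain ⟨g1, g2, g3⟩ := (hF g).1 hgF
        refine ⟨?_, g1, ?_, ?_⟩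
        · intro h
          have : g = (x, y) := Prod.ext h hg1
          rw [this] at hg2
          exact lt_irrefl _ hg2
        · rw [hg1] at g3
          exact g3.symm
        · have h3 : B - pf g.2 g.1 ≤ B - pf y x := lex_le (hidxM _) hg2
          rw [hg1] at h3
          have h4 := hB y g.1
          have h5 := hB y x
          show pf y x ≤ pf y g.1
          omega
    have h3 := hgal x y hx hy hxy
    show (F.filter (fun g => g.1 = x ∧ P (x, y) < P g)).card +
        (F.filter (fun g => g.2 = y ∧ Q g < Q (x, y))).card < (L (x, y)).card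
    rw [hLc]
    omega
  obtain ⟨φ, hφ⟩ := Pool.Agent.TH559.LE.galvin (C := ℕ) (fun e : V × V => e.1)
    (fun e => e.2) P Q hop hip #F F L rfl hL
  have hmem : ∀ x y, G.Adj x y → S x → ¬ S y → (x, y) ∈ F := fun x y h hx hy =>
    (hF _).2 ⟨hx, hy, h⟩
  -- the sides
  have hd1 : ∀ v, dg (ins G S) v ≤ p - 1 := by
    intro v
    rw [Pool.Agent.T9h95.CP.dg_cn]
    have h1 := hown v
    by_cases hv : S v
    · have h2 : cn (fun w => (ins G S).Adj v w) ≤ cn (fun w => G.Adj v w ∧ (S w ↔ S v)) :=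
        Pool.Agent.T9h95.CP.cn_mono fun w hw => ⟨hw.1, ⟨fun _ => hv, fun _ => hw.2.2⟩⟩
      omega
    · have h2 : cn (fun w => (ins G S).Adj v w) = 0 :=
        Pool.Agent.T9h95.CP.cn_zero fun w hw => hv hw.2.1
      omega
  have hd2 : ∀ v, dg (ins G fun v => ¬ S v) v ≤ p - 1 := by
    intro v
    rw [Pool.Agent.T9h95.CP.dg_cn]
    have h1 := hown v
    by_cases hv : S v
    · have h2 : cn (fun w => (ins G fun v => ¬ S v).Adj v w) = 0 :=
        Pool.Agent.T9h95.CP.cn_zero fun w hw => hw.2.1 hv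
      omega
    · have h2 : cn (fun w => (ins G fun v => ¬ S v).Adj v w) ≤
          cn (fun w => G.Adj v w ∧ (S w ↔ S v)) :=
        Pool.Agent.T9h95.CP.cn_mono fun w hw =>
          ⟨hw.1, ⟨fun h => absurd h hw.2.2, fun h => absurd h hv⟩⟩
      omega
  have hE1 := vizing hd1
  have hE2 := vizing hd2
  rw [Nat.sub_add_cancel hp] at hE1 hE2
  obtain ⟨gL, gl⟩ := hE1
  obtain ⟨gH, gh⟩ := hE2
  refine Pool.T9h45.HD.assemble S f gL gH (fun x y => φ (x, y)) D p 0 0 hp ?_ ?_ ?_ ?_ ?_ ?_ ?_ ?_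
    ?_ ?_
  · intro u v h hu hv
    exact ⟨gl.lt u v ⟨h, hu, hv⟩, gl.symm u v ⟨h, hu, hv⟩⟩
  · intro u v w h h' hu hv hw hne he
    exact hne (gl.inj u v w ⟨h, hu, hv⟩ ⟨h', hu, hw⟩ he)
  · intro u v h hu hv
    exact ⟨gh.lt u v ⟨h, hu, hv⟩, gh.symm u v ⟨h, hu, hv⟩⟩
  · intro u v w h h' hu hv hw hne he
    exact hne (gh.inj u v w ⟨h, hu, hv⟩ ⟨h', hu, hw⟩ he)
  · intro u v h h'
    exact hff u v h h'
  · intro x y h hx hy
    have h1 := (hφ _ (hmem x y h hx hy)).1
    have h2 := Finset.mem_Ico.1 h1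
    have h3 : f x ≤ φ (x, y) := h2.1
    have h4 : φ (x, y) < D - f y := h2.2
    show f x + 0 ≤ φ (x, y) ∧ φ (x, y) + f y + 0 < D
    omega
  · intro u v w h h' hu hv hw hne he
    have h1 := (hφ _ (hmem u v h hu hv)).2 (u, w) (hmem u w h' hu hw)
      (fun hh => hne (congrArg Prod.snd hh).symm) he.symm
    exact h1.1 rfl
  · intro u v w h h' hu hv hw hne he
    have h1 := (hφ _ (hmem v u h.symm hv hu)).2 (w, u) (hmem w u h'.symm hw hu)
      (fun hh => hne (congrArg Prod.fst hh).symm) he.symm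
    exact h1.2 rfl
  · intro u _
    have := hfD u
    omega
  · intro u _
    have := hfD u
    omega

end Pool.T9h45.LD
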