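import Pool.Agent.T9h45.LD.Spec
import Pool.Agent.T9h45.CP.Final

/-!
# The Havet-Yu conjecture for locally dense graphs, from the pieces
-/

set_option autoImplicit false

namespace Pool.T9h45.LD

open Finset Classical Pool.T9h45.HY Pool.T9h45.CP

theorem near (hg : SGen) (h1 : SE1) (h2 : SE2) (h3 : SE3) (t1 : ST1) (t2 : ST2) (t3 : ST3)
    (t4 : ST4b) (b1 : SB1) (b2 : SB2) : SNear := by
  intro V _ G cl D h p hD hdeg hout hnon hn1 hn hp
  obtain ⟨S, big, inn, σ, hpre⟩ := b1 t1 t2 t3 V G cl D h hD hdeg hout hnon hn1 hn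
  obtain ⟨f, hd, hs⟩ := b2 t4 V G cl D h p S big inn σ hD hp hpre
  refine hg V G D p S f (pf cl S big inn f D h) (by omega) hd.fle ?_ hd.own ?_
  · intro u v huv hS hf
    by_cases hc : cl u = cl v
    · rcases hd.finj u v hc hS hf with h | h
      · exact G.ne_of_adj huv h
      · rw [h] at huv
        exact hd.adjs v huv.symm
    · exact hd.fout u v huv hc hS hf
  · intro x y hx hy hxy
    by_cases hc : cl x = cl y
    · by_cases hb : big x
      · exact h2 V G cl D h p S big inn σ f hd hs x y hx hy hxy hc hb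
      · exact h1 V G cl D h p S big inn σ f hd x y hx hy hxy hc hb
    · exact h3 V G cl D h p S big inn σ f hd x y hx hy hxy hc

/-- ordered pairs of adjacent neighbours -/
noncomputable def adjA {V : Type} [Fintype V] (G : SimpleGraph V) (v : V) : Finset (V × V) :=
  (univ : Finset (V × V)).filter (fun a => G.Adj v a.1 ∧ G.Adj v a.2 ∧ G.Adj a.1 a.2)

/-- locally dense graphs -/
theorem dense (hN : SNear) (hS : SSt) (ε : ℝ) (hε : 0 < ε) :
    ∃ δ : ℝ, 0 < δ ∧ δ ≤ 1 ∧ ∃ D₀ : ℕ, ∀ (V : Type) [Fintype V] (G : SimpleGraph V) (D p : ℕ),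
      D₀ ≤ D → (∀ v, cn (fun w => G.Adj v w) ≤ D) →
      (∀ v, (1 - δ) * (D : ℝ) ^ 2 ≤ ((adjA G v).card : ℝ)) →
      (1 / 2 + ε) * (D : ℝ) ≤ p → Lb G p (D + 2 * p) := by
  obtain ⟨η, hη⟩ : ∃ η : ℝ, η = min (ε / 1200) (1 / 10000) := ⟨_, rfl⟩
  have hη0 : 0 < η := by rw [hη]; exact lt_min (by linarith) (by norm_num)
  have hηε : η ≤ ε / 1200 := by rw [hη]; exact min_le_left _ _
  have hη1 : η ≤ 1 / 10000 := by rw [hη]; exact min_le_right _ _
  obtain ⟨D₁, hD₁⟩ : ∃ D₁ : ℕ, 1400 / ε ≤ D₁ := exists_nat_ge _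
  refine ⟨η ^ 2, by positivity, by nlinarith, max D₁ 20000, ?_⟩
  intro V _ G D p hD₀ hdeg hden hp
  have hD3 : D₁ ≤ D := le_trans (le_max_left _ _) hD₀
  have hD4 : 20000 ≤ D := le_trans (le_max_right _ _) hD₀
  have hD3r : 1400 / ε ≤ (D : ℝ) := le_trans hD₁ (by exact_mod_cast hD3)
  have hD4r : (20000 : ℝ) ≤ D := by exact_mod_cast hD4
  have hεD : 1400 ≤ ε * D := by
    rw [div_le_iff₀ hε] at hD3r
    linarith
  have hp2 : (D : ℝ) + 2 * (ε * D) ≤ 2 * p := by linarith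
  obtain ⟨k, hk⟩ : ∃ k : ℕ, k = ⌈η * D⌉₊ := ⟨_, rfl⟩
  have hk1 : (k : ℝ) ≤ η * D + 1 := by
    rw [hk]
    exact (Nat.ceil_lt_add_one (by positivity)).le
  have hk2 : η * D ≤ (k : ℝ) := by
    rw [hk]
    exact Nat.le_ceil _
  have hηD : η * D ≤ D / 10000 := by nlinarith
  have hηεD : 1200 * (η * D) ≤ ε * D := by nlinarith
  have h6 : 6 * k + 1 ≤ D := by
    have : 6 * (k : ℝ) + 1 ≤ D := by linarith
    exact_mod_cast this
  obtain ⟨cl, c1, c2, c3, c4⟩ := hS V G D k hdeg h6 (by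
    intro v
    have h3 : (η * D) ^ 2 ≤ (k : ℝ) ^ 2 := pow_le_pow_left₀ (by positivity) hk2 2
    have h4 := hden v
    have h5 : (D : ℝ) ^ 2 ≤ ((adjA G v).card : ℝ) + (k : ℝ) ^ 2 := by nlinarith
    exact_mod_cast h5)
  refine hN V G cl D (6 * k) p ?_ hdeg c1 c2 c3 c4 ?_
  · have h3 : 100 * (8 * (6 * (k : ℝ)) + 8) ≤ D := by linarith
    have h4 : 100 * (8 * (6 * k) + 8) ≤ D := by exact_mod_cast h3
    exact h4
  · have h3 : (D : ℝ) + 200 * (6 * k) + 200 ≤ 2 * p := by linarith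
    exact_mod_cast h3

/-- the number of adjacent pairs of neighbours as in `TH104/LS` -/
theorem adjA_card {V : Type} [Fintype V] (G : SimpleGraph V) [DecidableRel G.Adj] (v : V)
    (dp : DecidablePred fun a : V × V => G.Adj a.1 a.2) :
    (((G.neighborFinset v) ×ˢ (G.neighborFinset v)).filter
      (fun a => G.Adj a.1 a.2)).card = (adjA G v).card := by
  congr 1
  ext a
  simp only [adjA, mem_filter, mem_product, SimpleGraph.mem_neighborFinset, mem_univ, true_and]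
  tauto

/-- locally dense graphs, and graphs in which all vertices lie in the same number of triangles -/
theorem final (hN : SNear) (hS : SSt) (ε : ℝ) (hε : 0 < ε) :
    ∃ δ : ℝ, 0 < δ ∧ ∃ D₀ : ℕ, ∀ (V : Type) [Fintype V] (G : SimpleGraph V) (D p : ℕ),
      D₀ ≤ D → (∀ v, cn (fun w => G.Adj v w) ≤ D) →
      ((∀ v, (1 - δ) * (D : ℝ) ^ 2 ≤ ((adjA G v).card : ℝ)) ∨
        ∀ u v, (adjA G u).card = (adjA G v).card) →
      (1 / 2 + ε) * (D : ℝ) ≤ p → Lb G p (D + 2 * p) := by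
  obtain ⟨δ, hδ, hδ1, D₁, h1⟩ := dense hN hS ε hε
  obtain ⟨D₂, h2⟩ := Pool.Agent.TH104.LS.sparse_main δ hδ hδ1
  refine ⟨δ, hδ, max (max D₁ D₂) 1, ?_⟩
  intro V _ G D p hD₀ hdeg hG hp
  have hD1 : D₁ ≤ D := le_trans (le_trans (le_max_left _ _) (le_max_left _ _)) hD₀
  have hD2 : D₂ ≤ D := le_trans (le_trans (le_max_right _ _) (le_max_left _ _)) hD₀
  have hD4 : 1 ≤ D := le_trans (le_max_right _ _) hD₀
  rcases hG with hG | hG
  · exact h1 V G D p hD1 hdeg hG hp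
  · by_cases hA : ∀ v, ((((G.neighborFinset v) ×ˢ (G.neighborFinset v)).filter
      (fun a => G.Adj a.1 a.2)).card : ℝ) ≤ (1 - δ) * (D : ℝ) ^ 2
    · refine Lb_of_TotLab (by omega) (h2 V G D p hD2 (fun v => ?_) ?_ ?_)
      · rw [deg_eq]
        exact hdeg v
      · intro v
        convert hA v
      · have : 0 ≤ δ / 2 ^ 22 := by positivity
        have h3 : (1 / 2 - δ / 2 ^ 22) * (D : ℝ) ≤ (1 / 2 + ε) * D := by
          apply mul_le_mul_of_nonneg_right _ (by positivity)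
          linarith
        linarith
    · push Not at hA
      obtain ⟨v₀, hv₀⟩ := hA
      refine h1 V G D p hD1 hdeg (fun v => ?_) hp
      rw [hG v v₀]
      have h3 := adjA_card G v₀ (fun a => inferInstance)
      rw [h3] at hv₀
      exact hv₀.le

end Pool.T9h45.LD
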