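import Pool.Agent.T9h45.LD.Final
import Pool.Agent.T9h45.HD.One

/-!
# Graphs without edges between locally dense and locally sparse vertices
-/

set_option autoImplicit false

namespace Pool.T9h45.LD

open Finset Classical Pool.T9h45.HY Pool.T9h45.CP

theorem cn_induce {V : Type} [Fintype V] (G : SimpleGraph V) (S : Set V) [Fintype S] (v : S) :
    cn (fun w : S => (G.induce S).Adj v w) ≤ cn (fun w => G.Adj v w) := by
  unfold cn
  refine card_le_card_of_injOn Subtype.val ?_ fun a _ b _ h => Subtype.ext h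
  intro w hw
  rw [mem_coe, mem_filter] at hw ⊢
  exact ⟨mem_univ _, hw.2⟩

theorem adjA_induce {V : Type} [Fintype V] (G : SimpleGraph V) (S : Set V) [Fintype S]
    (hS : ∀ u v, G.Adj u v → u ∈ S → v ∈ S) (v : S) :
    (adjA (G.induce S) v).card = (adjA G v).card := by
  refine card_bij (fun a _ => ((a.1 : V), (a.2 : V))) ?_ ?_ ?_
  · intro a ha
    rw [adjA, mem_filter] at ha ⊢
    exact ⟨mem_univ _, ha.2⟩
  · intro a _ b _ h
    have h1 := congrArg Prod.fst h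
    have h2 := congrArg Prod.snd h
    exact Prod.ext (Subtype.ext h1) (Subtype.ext h2)
  · intro b hb
    rw [adjA, mem_filter] at hb
    obtain ⟨-, h1, h2, h3⟩ := hb
    refine ⟨(⟨b.1, hS v b.1 h1 v.2⟩, ⟨b.2, hS v b.2 h2 v.2⟩), ?_, rfl⟩
    rw [adjA, mem_filter]
    exact ⟨mem_univ _, h1, h2, h3⟩

/-- no locally dense vertex is adjacent to a vertex which is not locally dense -/
theorem mixed (hN : SNear) (hS : SSt) (ε : ℝ) (hε : 0 < ε) :
    ∃ δ₀ : ℝ, 0 < δ₀ ∧ ∀ δ : ℝ, 0 < δ → δ ≤ δ₀ → ∃ D₀ : ℕ, ∀ (V : Type) [Fintype V]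
      (G : SimpleGraph V) (D p : ℕ),
      D₀ ≤ D → (∀ v, cn (fun w => G.Adj v w) ≤ D) →
      (∀ u v, G.Adj u v → ((1 - δ) * (D : ℝ) ^ 2 ≤ ((adjA G u).card : ℝ) ↔
        (1 - δ) * (D : ℝ) ^ 2 ≤ ((adjA G v).card : ℝ))) →
      (1 / 2 + ε) * (D : ℝ) ≤ p → Lb G p (D + 2 * p) := by
  obtain ⟨δ₀, hδ₀, hδ₀1, D₁, h1⟩ := dense hN hS ε hε
  refine ⟨δ₀, hδ₀, fun δ hδ hδδ => ?_⟩
  have hδ1 : δ ≤ 1 := hδδ.trans hδ₀1
  obtain ⟨D₂, h2⟩ := Pool.Agent.TH104.LS.sparse_main δ hδ hδ1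
  refine ⟨max (max D₁ D₂) 1, ?_⟩
  intro V _ G D p hD₀ hdeg hG hp
  have hD1 : D₁ ≤ D := le_trans (le_trans (le_max_left _ _) (le_max_left _ _)) hD₀
  have hD2 : D₂ ≤ D := le_trans (le_trans (le_max_right _ _) (le_max_left _ _)) hD₀
  have hD4 : 1 ≤ D := le_trans (le_max_right _ _) hD₀
  refine Pool.T9h45.HD.glue (ι := Prop)
    (fun v => (1 - δ) * (D : ℝ) ^ 2 ≤ ((adjA G v).card : ℝ))
    (fun u v huv => propext (hG u v huv)) fun i => ?_
  show Lb (G.induce {v | ((1 - δ) * (D : ℝ) ^ 2 ≤ ((adjA G v).card : ℝ)) = i}) p (D + 2 * p)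
  obtain ⟨S, hSi⟩ : ∃ S : Set V, S = {v | ((1 - δ) * (D : ℝ) ^ 2 ≤ ((adjA G v).card : ℝ)) = i} :=
    ⟨_, rfl⟩
  rw [← hSi]
  have hmem : ∀ v, v ∈ S ↔ ((1 - δ) * (D : ℝ) ^ 2 ≤ ((adjA G v).card : ℝ)) = i := by
    intro v
    rw [hSi]
    exact Iff.rfl
  have hcl : ∀ u v, G.Adj u v → u ∈ S → v ∈ S := by
    intro u v huv hu
    rw [hmem] at hu ⊢
    exact (propext (hG u v huv)).symm.trans hu
  have hdeg' := fun v => (cn_induce G S v).trans (hdeg v)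
  have hadj := adjA_induce G S hcl
  by_cases hi : i
  · refine h1 S _ D p hD1 hdeg' (fun v => ?_) hp
    rw [hadj v]
    have h3 : (1 - δ) * (D : ℝ) ^ 2 ≤ ((adjA G v).card : ℝ) := ((hmem v).1 v.2).symm ▸ hi
    refine le_trans (mul_le_mul_of_nonneg_right ?_ (by positivity)) h3
    linarith
  · refine Lb_of_TotLab (by omega) (h2 S _ D p hD2 (fun v => ?_) (fun v => ?_) ?_)
    · rw [deg_eq]
      exact hdeg' v
    · rw [adjA_card _ v (fun a => inferInstance), hadj v]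
      have h3 : ¬ ((1 - δ) * (D : ℝ) ^ 2 ≤ ((adjA G v).card : ℝ)) := by
        intro h
        exact hi ((hmem v).1 v.2 ▸ h)
      exact (not_le.1 h3).le
    · have : 0 ≤ δ / 2 ^ 22 := by positivity
      have h3 : (1 / 2 - δ / 2 ^ 22) * (D : ℝ) ≤ (1 / 2 + ε) * D := by
        apply mul_le_mul_of_nonneg_right _ (by positivity)
        linarith
      linarith

end Pool.T9h45.LD
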