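import Pool.Agent.T9h45.CP.Spec

/-!
# Specification: the Havet-Yu conjecture for all locally dense graphs and `p ≥ (1/2 + ε) D`

THEOREM.  For all `ε > 0` there are `δ > 0`, `D₀` such that every graph with all degrees at most
`D ≥ D₀` in which every vertex has at least `(1 - δ) D²` ordered pairs of adjacent neighbours has a
`(p,1)`-total labelling of span `D + 2p - 1` for all `p ≥ (1/2 + ε) D`.  No regularity, no symmetry.
(With `TH104/LS` : all graphs in which all the vertices lie in the same number of triangles.)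

`θ = th h = 8 h + 8`.  Classes `cl` (near-cliques): sizes between `D - h` and `D + h`, every vertex has
at most `h` neighbours in other classes and at most `h` nonneighbours in its class.
A class is *big* if its complement contains `2 θ` disjoint pairs, otherwise *small*.
`S` = low side, `σ` = partner in a nonadjacent pair of the same class and side with the same label
(`σ v = v` if there is none), `inn` = inner vertices.
* Big class: `θ` pairs are low and inner (labels `< θ`), `θ` pairs are high and inner (labels `< θ`), the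
  other vertices are single.
* Small class: all pairs are high and inner; `4 θ` atoms are inner (labels `< 4 θ`), they are high;
  the low vertices form a clique.
The edges `x y`, `S x`, `¬ S y`, get labels by Galvin's method (piece GEN) with the preferences `pf`.
-/

set_option autoImplicit false

namespace Pool.T9h45.LD

open Finset Classical Pool.T9h45.HY Pool.T9h45.CP

/-- `θ` -/
def th (h : ℕ) : ℕ := 8 * h + 8

/-- size of the class -/
noncomputable def cN {V : Type} [Fintype V] (cl : V → V) (v : V) : ℕ := cn fun w => cl w = cl v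

/-- number of nonneighbours in the class -/
noncomputable def cNon {V : Type} [Fintype V] (G : SimpleGraph V) (cl : V → V) (v : V) : ℕ :=
  cn fun w => cl w = cl v ∧ w ≠ v ∧ ¬ G.Adj v w

/-- number of vertices of the class in pairs -/
noncomputable def cPair {V : Type} [Fintype V] (cl σ : V → V) (v : V) : ℕ :=
  cn fun w => cl w = cl v ∧ σ w ≠ w

/-- **GEN.**  Galvin (`Pool.Agent.TH559.LE.galvin`; ties are broken by an injective numbering of `V`) +
Vizing on both sides + assemble: see `Pool/Agent/T9h31/CP/Gal.lean`, `Pool/Agent/T9h95/CP/Clique.lean`.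
Lists `[f x, D - f y)`. -/
def SGen : Prop := ∀ (V : Type) [Fintype V] (G : SimpleGraph V) (D p : ℕ) (S : V → Prop)
  (f : V → ℕ) (pf : V → V → ℕ), 1 ≤ p → (∀ v, f v ≤ D) →
  (∀ u v, G.Adj u v → (S u ↔ S v) → f u ≠ f v) →
  (∀ v, cn (fun w => G.Adj v w ∧ (S w ↔ S v)) + 1 ≤ p) →
  (∀ x y, S x → ¬ S y → G.Adj x y →
    cn (fun z => z ≠ y ∧ ¬ S z ∧ G.Adj x z ∧ pf x y ≤ pf x z) +
    cn (fun z => z ≠ x ∧ S z ∧ G.Adj y z ∧ pf y x ≤ pf y z) + f x + f y < D) →
  Lb G p (D + 2 * p)

/-- the preference of `x` for its neighbour `y` on the other side: neighbours in other classes first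
(but last for the inner high vertices of small classes), then by label, larger labels first; in big
classes, a vertex with label `< θ` sorts the inner vertices of the other side (all of them after the
other ones) by parity: low vertices prefer the ones of the other parity, high vertices the ones of
the same parity. -/
noncomputable def pf {V : Type} (cl : V → V) (S big inn : V → Prop) (f : V → ℕ) (D h : ℕ)
    (x y : V) : ℕ :=
  if cl y ≠ cl x then (if ¬ big x ∧ ¬ S x ∧ inn x then 0 else 2 * th h + D + 2)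
  else if big x ∧ f x < th h then
    (if f y < th h then (if (S x ↔ (f x + f y) % 2 = 1) then th h + f y + 1 else f y + 1)
      else 2 * th h + f y + 1)
  else f y + 1

/-- the data with labels -/
structure Dat {V : Type} [Fintype V] (G : SimpleGraph V) (cl : V → V) (D h p : ℕ)
    (S big inn : V → Prop) (σ : V → V) (f : V → ℕ) : Prop where
  hdeg : ∀ v, cn (fun w => G.Adj v w) ≤ D
  hout : ∀ v, cE G cl v ≤ h
  hn : ∀ v, cN cl v ≤ D + h
  bigcl : ∀ u v, cl u = cl v → (big u ↔ big v)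
  invs : ∀ v, σ (σ v) = v
  cls : ∀ v, cl (σ v) = cl v
  adjs : ∀ v, ¬ G.Adj v (σ v)
  Ss : ∀ v, (S (σ v) ↔ S v)
  fs : ∀ v, f (σ v) = f v
  fle : ∀ v, f v ≤ D
  finj : ∀ u v, cl u = cl v → (S u ↔ S v) → f u = f v → u = v ∨ u = σ v
  fout : ∀ u v, G.Adj u v → cl u ≠ cl v → (S u ↔ S v) → f u ≠ f v
  fsurj : ∀ v c, c < f v → ∃ w, cl w = cl v ∧ (S w ↔ S v) ∧ f w = c
  /-- in big classes the labels `< θ` belong to pairs -/
  bpair : ∀ v, big v → f v < th h → σ v ≠ v
  /-- the low vertices of a small class form a clique and see all the atoms of the high side -/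
  sclique : ∀ u v, ¬ big u → S u → S v → cl u = cl v → u ≠ v → G.Adj u v
  ssee : ∀ x q, ¬ big x → S x → ¬ S q → cl q = cl x → G.Adj x q ∨ G.Adj x (σ q)
  sI : ∀ x y, ¬ big x → S x → ¬ S y → cl y = cl x → ¬ inn y →
    cO G S cl x + cO G S cl y + cN cl x ≤ D + 1 + cNon G cl x
  O1 : ∀ x y, S x → ¬ S y → G.Adj x y → cl x ≠ cl y → (big y ∨ ¬ inn y) →
    f x + f y + cO G S cl x + cO G S cl y ≤ D + 1
  O2 : ∀ x y, S x → ¬ S y → G.Adj x y → cl x ≠ cl y → ¬ big y → inn y →
    f x + f y + cA S cl y + 2 * h ≤ D + 1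
  own : ∀ v, cn (fun w => G.Adj v w ∧ (S w ↔ S v)) + 1 ≤ p

/-- the inequality which is needed for the edge `x y` -/
def Edge {V : Type} [Fintype V] (G : SimpleGraph V) (cl : V → V) (D h : ℕ)
    (S big inn : V → Prop) (f : V → ℕ) (x y : V) : Prop :=
  cn (fun z => z ≠ y ∧ ¬ S z ∧ G.Adj x z ∧ pf cl S big inn f D h x y ≤ pf cl S big inn f D h x z) +
    cn (fun z => z ≠ x ∧ S z ∧ G.Adj y z ∧ pf cl S big inn f D h y x ≤ pf cl S big inn f D h y z) +
    f x + f y < D

/-- **E1.** Edges inside small classes.  At `x`: at most `cO x` outside edges and the other high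
neighbours `z` in the class with `f z ≥ f y`; at least `f y` high neighbours in the class have smaller
labels (fsurj + ssee + fs), so at most `cO x + (N - 1 - f y)`, `N` = number of high neighbours of `x` in the
class, `cA x + N = cN x - cNon x` (sclique).  At `y`: at most `cA - 1 - f x` low vertices of the
class (`f` is injective on them, finj + adjs + sclique; labels below `f x` are used, fsurj), and the
outside edges, at most `cO y`, unless `inn y` (then they have preference `0`).  If `¬ inn y` use sI; if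
`inn y` use `cN x - cNon x + cE x ≤ D + 1` (degree of `x`). -/
def SE1 : Prop := ∀ (V : Type) [Fintype V] (G : SimpleGraph V) (cl : V → V) (D h p : ℕ)
  (S big inn : V → Prop) (σ : V → V) (f : V → ℕ), Dat G cl D h p S big inn σ f →
  ∀ x y, S x → ¬ S y → G.Adj x y → cl x = cl y → ¬ big x → Edge G cl D h S big inn f x y

/-- **E2.** Edges inside big classes.  `a`, `b` = numbers of low / high vertices of the class; every
label `< θ` which is used is used by exactly two vertices of the side (bpair, fs, finj), the other ones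
at least once (fsurj).  So at least `2 c` vertices of a side have labels `< c` if `c ≤ θ` and `c` is
at most a label used, and at least `θ + c` if `c ≥ θ`.  Hence for `f x, f y ≥ θ`: at `x` at most
`h + (b - 1 - θ - f y)`; `f x < θ ≤ f y`: at `x` at most `h + (b - 1 - θ - f y)`, at `y` at most
`h + (a - 1 - 2 f x)`; `f y < θ ≤ f x`: symmetric; `f x, f y < θ`, different parity: at `x` at most
`h + (b - 2 θ) + (θ - f y)` (labels `≥ θ`: `b - 2 θ` vertices; same parity as `f y` and label `≥ f y`: at most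
`θ - f y`), at `y` at most `h + (a - 2 θ) + θ + (θ - f x)`; same parity: symmetric.
[If not all labels `< θ` are used on the side of `x`, the numbers of vertices are only smaller than
these bounds or the case is trivial; if convenient use in addition `a, b ≥ 2 θ`: see `Dat2`.]
The sum is always at most `cN - θ + 2 h + f-terms ≤ D + 3 h - θ < D`. -/
def SE2 : Prop := ∀ (V : Type) [Fintype V] (G : SimpleGraph V) (cl : V → V) (D h p : ℕ)
  (S big inn : V → Prop) (σ : V → V) (f : V → ℕ), Dat G cl D h p S big inn σ f →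
  (∀ v, big v → ∀ c < th h, (∃ w, cl w = cl v ∧ S w ∧ f w = c) ∧ ∃ w, cl w = cl v ∧ ¬ S w ∧ f w = c) →
  ∀ x y, S x → ¬ S y → G.Adj x y → cl x = cl y → big x → Edge G cl D h S big inn f x y

/-- **E3.** Edges between different classes.  At `x`: only the other outside edges, `cO x - 1`.  At `y`:
`cO y - 1`, or, if `y` is high inner in a small class, at most `cA y + cO y - 1`.  Use O1, O2 (and
`cO ≤ cE ≤ h`). -/
def SE3 : Prop := ∀ (V : Type) [Fintype V] (G : SimpleGraph V) (cl : V → V) (D h p : ℕ)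
  (S big inn : V → Prop) (σ : V → V) (f : V → ℕ), Dat G cl D h p S big inn σ f →
  ∀ x y, S x → ¬ S y → G.Adj x y → cl x ≠ cl y → Edge G cl D h S big inn f x y

/-- **T1.** For every class a maximal family of at most `m` disjoint nonadjacent pairs.  If it has `m`
pairs: big.  Otherwise it is a maximum matching of the complement: the single vertices are pairwise
adjacent, and for a pair `{q, σ q}` there are no two different single vertices `u ≠ u'`, `u` not adjacent
to `q`, `u'` not adjacent to `σ q` (augmenting path).  `bad` = single vertices adjacent to neither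
vertex of some pair: at most one for every pair. -/
def ST1 : Prop := ∀ (V : Type) [Fintype V] (G : SimpleGraph V) (cl : V → V) (m : ℕ),
  ∃ (big bad : V → Prop) (σ : V → V),
    (∀ u v, cl u = cl v → (big u ↔ big v)) ∧ (∀ v, σ (σ v) = v) ∧ (∀ v, cl (σ v) = cl v) ∧
    (∀ v, ¬ G.Adj v (σ v)) ∧ (∀ v, big v → cPair cl σ v = 2 * m) ∧
    (∀ v, ¬ big v → cPair cl σ v < 2 * m ∧
      2 * cn (fun w => cl w = cl v ∧ bad w) ≤ cPair cl σ v) ∧
    (∀ v, bad v → σ v = v) ∧
    (∀ u v, ¬ big u → cl u = cl v → u ≠ v → σ u = u → σ v = v → G.Adj u v) ∧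
    (∀ u q, ¬ big u → cl q = cl u → σ u = u → ¬ bad u → σ q ≠ q → G.Adj u q ∨ G.Adj u (σ q))

/-- **T2.** Choice of the inner vertices, and of the sides in big classes.  Big class (`2 θ` pairs):
inner = in a pair; `θ` pairs get `S₀`, and single vertices until the class has `(cN - 8 θ) / 2` vertices
with `S₀`.  Small class: inner = all vertices in pairs (`< 4 θ` vertices), all bad vertices, and further
single vertices until there are `4 θ` atoms; `S₀` = not inner (or anything). -/
def ST2 : Prop := ∀ (V : Type) [Fintype V] (cl σ : V → V) (big bad : V → Prop) (t : ℕ),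
  (∀ u v, cl u = cl v → (big u ↔ big v)) → (∀ v, σ (σ v) = v) → (∀ v, cl (σ v) = cl v) →
  (∀ v, big v → cPair cl σ v = 2 * (2 * t)) →
  (∀ v, ¬ big v → cPair cl σ v < 2 * (2 * t) ∧
      2 * cn (fun w => cl w = cl v ∧ bad w) ≤ cPair cl σ v) →
  (∀ v, bad v → σ v = v) → (∀ v, 20 * t ≤ cN cl v) →
  ∃ inn S₀ : V → Prop, (∀ v, (inn (σ v) ↔ inn v)) ∧ (∀ v, (S₀ (σ v) ↔ S₀ v)) ∧
    (∀ v, ¬ big v → bad v → inn v) ∧ (∀ v, σ v ≠ v → inn v) ∧ (∀ v, big v → inn v → σ v ≠ v) ∧
    (∀ v, big v → cn (fun w => cl w = cl v ∧ S₀ w ∧ inn w) = 2 * t ∧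
      cn (fun w => cl w = cl v ∧ ¬ S₀ w ∧ inn w) = 2 * t ∧
      cn (fun w => S₀ w ∧ cl w = cl v) = (cN cl v - 8 * t) / 2) ∧
    (∀ v, ¬ big v → inn v → ¬ S₀ v) ∧
    (∀ v, ¬ big v → 2 * cn (fun w => cl w = cl v ∧ inn w) = 8 * t + cPair cl σ v)

/-- **T3.** The potential (see `SPart`, `Pool/Agent/T9h41/CP/Part.lean`), only vertices of `mv` move:
`4 * cross - 4 * Σ_{v ∈ S ∩ mv} nu v + Σ_classes (a - b + tau)²` minimal. -/
def ST3 : Prop := ∀ (V : Type) [Fintype V] (G : SimpleGraph V) (cl : V → V) (mv S₀ : V → Prop)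
  (nu tau : V → ℕ), (∀ u v, cl u = cl v → tau u = tau v) →
  ∃ S : V → Prop, (∀ v, ¬ mv v → (S v ↔ S₀ v)) ∧
    (∀ x, mv x → S x →
      2 * cO G S cl x + cA S cl x + tau x ≤ cE G cl x + nu x + cB S cl x + 1) ∧
    (∀ y, mv y → ¬ S y →
      2 * cO G S cl y + nu y + cB S cl y ≤ cE G cl y + cA S cl y + tau y + 1) ∧
    (∀ x y, mv x → mv y → S x → ¬ S y → cl x = cl y →
      2 * (cO G S cl x + cO G S cl y) + nu y ≤ cE G cl x + cE G cl y + nu x)

/-- **T4a.** Strong colouring with offsets (the proof of `SStrong`, `Pool/Agent/T9h41/CP/Strong.lean`,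
with colours `lo v, …`). -/
def ST4a : Prop := ∀ (V ι : Type) [Fintype V] (G : SimpleGraph V) (pt : V → ι) (lo : V → ℕ) (d : ℕ),
  (∀ u v, pt u = pt v → lo u = lo v) → (∀ v, cn (fun w => G.Adj v w ∧ pt w ≠ pt v) ≤ d) →
  (∀ v, 4 * d ≤ cn (fun w => pt w = pt v)) →
  ∃ f : V → ℕ, (∀ v, lo v ≤ f v ∧ f v < lo v + cn (fun w => pt w = pt v)) ∧
    (∀ u v, u ≠ v → (pt u = pt v ∨ G.Adj u v) → f u ≠ f v)

/-- **T4b.** `ST4a` for the atoms `{v, σ v}` (quotient of `V`; conflicts: at most `2 h` other atoms). -/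
def ST4b : Prop := ∀ (V ι : Type) [Fintype V] (G : SimpleGraph V) (pt : V → ι) (lo : V → ℕ)
  (σ : V → V) (h : ℕ), (∀ u v, pt u = pt v → lo u = lo v) → (∀ v, σ (σ v) = v) →
  (∀ v, pt (σ v) = pt v) → (∀ v, cn (fun w => G.Adj v w ∧ pt w ≠ pt v) ≤ h) →
  (∀ v, 16 * h ≤ cn (fun w => pt w = pt v)) →
  ∃ f : V → ℕ, (∀ v, f (σ v) = f v) ∧ (∀ v, lo v ≤ f v) ∧
    (∀ v, 2 * f v < 2 * lo v + cn (fun w => pt w = pt v) + cn (fun w => pt w = pt v ∧ σ w = w)) ∧
    (∀ u v, pt u = pt v → f u = f v → u = v ∨ u = σ v) ∧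
    (∀ u v, G.Adj u v → pt u ≠ pt v → f u ≠ f v) ∧
    (∀ v c, lo v ≤ c →
      2 * c < 2 * lo v + cn (fun w => pt w = pt v) + cn (fun w => pt w = pt v ∧ σ w = w) →
      ∃ w, pt w = pt v ∧ f w = c)

/-- the data before the labelling -/
structure Pre {V : Type} [Fintype V] (G : SimpleGraph V) (cl : V → V) (D h : ℕ)
    (S big inn : V → Prop) (σ : V → V) : Prop where
  hdeg : ∀ v, cn (fun w => G.Adj v w) ≤ D
  hout : ∀ v, cE G cl v ≤ h
  hn1 : ∀ v, D ≤ cN cl v + h
  hn : ∀ v, cN cl v ≤ D + h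
  bigcl : ∀ u v, cl u = cl v → (big u ↔ big v)
  invs : ∀ v, σ (σ v) = v
  cls : ∀ v, cl (σ v) = cl v
  adjs : ∀ v, ¬ G.Adj v (σ v)
  Ss : ∀ v, (S (σ v) ↔ S v)
  inns : ∀ v, (inn (σ v) ↔ inn v)
  pinn : ∀ v, σ v ≠ v → inn v
  bpair : ∀ v, big v → inn v → σ v ≠ v
  bsz : ∀ v, big v → cn (fun w => cl w = cl v ∧ S w ∧ inn w) = 2 * th h ∧
    cn (fun w => cl w = cl v ∧ ¬ S w ∧ inn w) = 2 * th h ∧
    2 * cA S cl v + 8 * th h ≤ cN cl v ∧ cN cl v ≤ 2 * cA S cl v + 8 * th h + 1
  slow : ∀ v, ¬ big v → S v → ¬ inn v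
  spair : ∀ v, ¬ big v → cPair cl σ v < 4 * th h
  sinn : ∀ v, ¬ big v → 2 * cn (fun w => cl w = cl v ∧ inn w) = 8 * th h + cPair cl σ v
  sclique : ∀ u v, ¬ big u → S u → S v → cl u = cl v → u ≠ v → G.Adj u v
  ssee : ∀ x q, ¬ big x → S x → ¬ S q → cl q = cl x → G.Adj x q ∨ G.Adj x (σ q)
  sI : ∀ x y, ¬ big x → S x → ¬ S y → cl y = cl x → ¬ inn y →
    cO G S cl x + cO G S cl y + cN cl x ≤ D + 1 + cNon G cl x
  sA : ∀ v, ¬ big v → 2 * cA S cl v + cPair cl σ v + 8 * th h ≤ D + 3 * h + 1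
  sB : ∀ v, ¬ big v → 2 * cB S cl v ≤ D + 8 * th h + cPair cl σ v + 2 * h + 1
  sO : ∀ x y, ¬ big x → ¬ big y → S x → ¬ S y → ¬ inn y →
    2 * (cA S cl x + cB S cl y + cO G S cl x + cO G S cl y) ≤ 2 * D + 4 + cPair cl σ y

/-- **B1.** `ST1` with `m = 2 θ`; `ST2` with `t = θ`; `ST3` with `mv v = ¬ big v ∧ ¬ inn v`, `nu = cNon`,
`tau v = 8 θ + cPair v`; `S` as given.  For `x` in `mv`: `2 * cNon x ≤ cPair x` (`x` is single and not bad: it
is adjacent to all the single vertices and to at least one vertex of every pair).  Degree of `v`: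
`cN v + cE v ≤ D + 1 + cNon v`.
sI: the third inequality of ST3 + the degrees of `x` and `y`.  sO: the sum of the first one for `x` and
the second one for `y` + the degrees + `2 * cNon x ≤ cPair x`.
sA: if there is a low vertex `x` in the class, first inequality with `cE x ≤ h`, `cNon x ≤ h`,
`cA + cB = cN ≤ D + h`; otherwise `cA = 0` and `cPair + 8 θ < 12 θ ≤ D`.
sB: if there is `y` in the class with `mv y`, `¬ S y`: second inequality (`cE y ≤ h`, `cA = cN - cB`);
otherwise `cB` = number of inner vertices = `4 θ + cPair / 2`. -/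
def SB1 : Prop := ST1 → ST2 → ST3 → ∀ (V : Type) [Fintype V] (G : SimpleGraph V) (cl : V → V)
  (D h : ℕ), 100 * th h ≤ D → (∀ v, cn (fun w => G.Adj v w) ≤ D) → (∀ v, cE G cl v ≤ h) →
  (∀ v, cNon G cl v ≤ h) → (∀ v, D ≤ cN cl v + h) → (∀ v, cN cl v ≤ D + h) →
  ∃ (S big inn : V → Prop) (σ : V → V), Pre G cl D h S big inn σ

/-- **B2.** `ST4b` with `pt v = (S v, cl v, inn v)` (`ι = Prop × V × Prop`), the graph of all edges `u v` with
`cl u ≠ cl v` and `(S u ↔ S v)`, and `lo v = 0` if `inn v` or (`¬ big v` and `S v`), `lo v = θ` if `big v ∧ ¬ inn v`,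
`lo v = 4 θ` if `¬ big v ∧ ¬ S v ∧ ¬ inn v`.  Sizes of the parts: big inner `2 θ` (all in pairs: labels
`< θ`), big low not inner `cA - 2 θ` (labels `θ, …, cA - θ - 1`), big high not inner `cB - 2 θ`, small low
`cA` (labels `< cA`), small inner `4 θ + cPair / 2` vertices, `4 θ` atoms (labels `< 4 θ`), small high not
inner `cB - 4 θ - cPair / 2` (labels `< cB - cPair / 2`).  All parts have at least `16 h` vertices.
O1: both small: sO; otherwise by the sizes: big low `2 f ≤ D + h - 10 θ - 2`, big high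
`2 f ≤ D + h + 6 θ - 1`, small low `2 f ≤ D + 3 h - 1 - 8 θ`, small high `2 f ≤ D + 8 θ + 2 h - 1`.
O2: `f x`, `cA y ≤ (D + 3 h + 1 - 8 θ) / 2`, `f y < 4 θ`.  own: `cA - 1 + h`, `cB - 1 + h`. -/
def SB2 : Prop := ST4b → ∀ (V : Type) [Fintype V] (G : SimpleGraph V) (cl : V → V)
  (D h p : ℕ) (S big inn : V → Prop) (σ : V → V), 100 * th h ≤ D → D + 200 * h + 200 ≤ 2 * p →
  Pre G cl D h S big inn σ → ∃ f : V → ℕ, Dat G cl D h p S big inn σ f ∧
    (∀ v, big v → ∀ c < th h, (∃ w, cl w = cl v ∧ S w ∧ f w = c) ∧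
      ∃ w, cl w = cl v ∧ ¬ S w ∧ f w = c)

/-- the explicit theorem -/
def SNear : Prop := ∀ (V : Type) [Fintype V] (G : SimpleGraph V) (cl : V → V) (D h p : ℕ),
  100 * th h ≤ D → (∀ v, cn (fun w => G.Adj v w) ≤ D) → (∀ v, cE G cl v ≤ h) →
  (∀ v, cNon G cl v ≤ h) → (∀ v, D ≤ cN cl v + h) → (∀ v, cN cl v ≤ D + h) →
  D + 200 * h + 200 ≤ 2 * p → Lb G p (D + 2 * p)

/-- **ST.** Structure (`Pool/Agent/T9h56/CP/Struct.lean`, without regularity).  `t v` = number of ordered pairs
of adjacent neighbours `≥ D² - k²`.  So `deg v ≥ D - k`, and all but at most `k` neighbours `a` of `v` are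
strong: `|N(v) ∩ N(a)| ≥ D - k` (`t v = Σ_a |N(v) ∩ N(a)| ≤ D² - w (k + 1)`).  `u ≈ v` if
`|N(u) ∩ N(v)| ≥ 2 k + 1`; then there is a common neighbour strong for both, so
`|N(u) ∩ N(v)| ≥ D - 2 k`.  Outside neighbours: at most `k`.  `D - 2 k + 1 ≤ n`, and
`n (D - 2 k) ≤ D²` gives `n ≤ D + 4 k`.  Nonneighbours in the class: `n - 1 - (deg - cE) ≤ 6 k`. -/
def SSt : Prop := ∀ (V : Type) [Fintype V] (G : SimpleGraph V) (D k : ℕ),
  (∀ v, cn (fun w => G.Adj v w) ≤ D) → 6 * k + 1 ≤ D →
  (∀ v, D ^ 2 ≤ ((univ : Finset (V × V)).filter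
    (fun a => G.Adj v a.1 ∧ G.Adj v a.2 ∧ G.Adj a.1 a.2)).card + k ^ 2) →
  ∃ cl : V → V, (∀ v, cE G cl v ≤ 6 * k) ∧ (∀ v, cNon G cl v ≤ 6 * k) ∧
    (∀ v, D ≤ cN cl v + 6 * k) ∧ (∀ v, cN cl v ≤ D + 6 * k)

end Pool.T9h45.LD
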